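import Mathlib
import Pool.Agent.Helper156.JumpBasics
import Pool.Agent.Helper156.JumpOdd
import Pool.Agent.Helper156.JumpPoly

/-!
# MP_b0c270_co, Q1: polynomial bounds for the least number of jumps
-/

namespace Pool.Agent.Results.MP_b0c270_co.LeastNumber

open Pool.Agent.Helper156.JumpBasics Pool.Agent.Helper156.JumpOdd Pool.Agent.Helper156.JumpPoly

/-- `f N` is the least number of legal moves that turn the regular `N`-gon into the vertex set of
some larger regular `N`-gon. -/
noncomputable def f (N : ℕ) : ℕ := sInf {n | EnlargedBy N n}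

/-- each move changes the position of at most one piece -/
lemma card_moved {N n : ℕ} {p q : Fin N → ℂ} (h : Steps n p q) :
    (Finset.univ.filter (fun i => q i ≠ p i)).card ≤ n := by
  classical
  induction n generalizing p with
  | zero =>
    have : p = q := h
    subst this
    simp
  | succ n ih =>
    obtain ⟨r, hr, h⟩ := h
    obtain ⟨i, j, _, _, h2⟩ := hr
    have h3 := ih h
    have hsub : Finset.univ.filter (fun k => q k ≠ p k)
        ⊆ insert i (Finset.univ.filter (fun k => q k ≠ r k)) := by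
      intro k hk
      rw [Finset.mem_insert, Finset.mem_filter]
      rw [Finset.mem_filter] at hk
      by_cases hki : k = i
      · exact Or.inl hki
      · right
        refine ⟨Finset.mem_univ _, ?_⟩
        rw [h2 k hki]
        exact hk.2
    have h4 := Finset.card_le_card hsub
    have h5 := Finset.card_insert_le i (Finset.univ.filter (fun k => q k ≠ r k))
    omega

lemma polygon_norm (N : ℕ) (i : Fin N) : ‖polygon N i‖ = 1 := by
  unfold polygon
  have : (2 * (Real.pi : ℂ) * Complex.I * ((i : ℕ) : ℂ) / (N : ℂ))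
      = ((2 * Real.pi * (i : ℕ) / N : ℝ) : ℂ) * Complex.I := by
    push_cast; ring
  rw [this, Complex.norm_exp_ofReal_mul_I]

lemma polygon_inj (N : ℕ) : Function.Injective (polygon N) := by
  intro i j hij
  rw [polygon_eq, polygon_eq] at hij
  have hN : N ≠ 0 := by have := i.2; omega
  exact Fin.ext ((zz_prim hN).pow_inj i.2 j.2 hij)

/-- three different points of the unit circle have no common distance `> 1` to a point `c` -/
lemma three_points {a b d c : ℂ} (ha : ‖a‖ = 1) (hb : ‖b‖ = 1) (hd : ‖d‖ = 1) {R : ℝ} (hR : 1 < R)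
    (ha' : ‖a - c‖ = R) (hb' : ‖b - c‖ = R) (hd' : ‖d - c‖ = R) (hab : a ≠ b) (had : a ≠ d)
    (hbd : b ≠ d) : False := by
  have hc : c ≠ 0 := by
    intro h
    rw [h, sub_zero, ha] at ha'
    linarith
  have key : ∀ x : ℂ, ‖x‖ = 1 → ‖x - c‖ = R →
      (x * (starRingEnd ℂ) c).re = (1 + Complex.normSq c - R ^ 2) / 2 ∧
      (x * (starRingEnd ℂ) c).im ^ 2
        = Complex.normSq c - ((1 + Complex.normSq c - R ^ 2) / 2) ^ 2 := by
    intro x hx hxc
    have h1 : Complex.normSq (x - c) = R ^ 2 := by rw [Complex.normSq_eq_norm_sq, hxc]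
    have h2 : Complex.normSq x = 1 := by rw [Complex.normSq_eq_norm_sq, hx]; norm_num
    have h3 : Complex.normSq (x * (starRingEnd ℂ) c) = Complex.normSq c := by
      rw [Complex.normSq_mul, h2, one_mul, Complex.normSq_conj]
    have h4 : (x * (starRingEnd ℂ) c).re = (1 + Complex.normSq c - R ^ 2) / 2 := by
      rw [Complex.normSq_sub, h2] at h1
      linarith
    refine ⟨h4, ?_⟩
    rw [Complex.normSq_apply, h4] at h3
    linarith
  have hcc : (starRingEnd ℂ) c ≠ 0 := by simpa using hc
  have eqof : ∀ x y : ℂ, (x * (starRingEnd ℂ) c).re = (y * (starRingEnd ℂ) c).re →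
      (x * (starRingEnd ℂ) c).im = (y * (starRingEnd ℂ) c).im → x = y := by
    intro x y h1 h2
    exact mul_right_cancel₀ hcc (Complex.ext h1 h2)
  obtain ⟨a1, a2⟩ := key a ha ha'
  obtain ⟨b1, b2⟩ := key b hb hb'
  obtain ⟨d1, d2⟩ := key d hd hd'
  have h1 := sq_eq_sq_iff_eq_or_eq_neg.mp (b2.trans a2.symm)
  have h2 := sq_eq_sq_iff_eq_or_eq_neg.mp (d2.trans a2.symm)
  rcases h1 with h1 | h1
  · exact hab (eqof a b (a1.trans b1.symm) h1.symm)
  · rcases h2 with h2 | h2
    · exact had (eqof a d (a1.trans d1.symm) h2.symm)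
    · exact hbd (eqof b d (b1.trans d1.symm) (h1.trans h2.symm))

lemma lower {N n : ℕ} (h : EnlargedBy N n) : N - 2 ≤ n := by
  classical
  obtain ⟨q, hs, c, u, hu, hq⟩ := h
  have h1 := card_moved hs
  by_contra hlt
  push Not at hlt
  have h2 : 2 < (Finset.univ.filter (fun i => q i = polygon N i)).card := by
    have h3 := Finset.card_filter_add_card_filter_not (s := (Finset.univ : Finset (Fin N)))
      (fun i => q i = polygon N i)
    rw [Finset.card_univ, Fintype.card_fin] at h3
    have h4 : (Finset.univ.filter (fun i => ¬ q i = polygon N i)).card ≤ n := h1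
    omega
  obtain ⟨a, b, d, ha, hb, hd, hab, had, hbd⟩ := Finset.two_lt_card_iff.mp h2
  have hdist : ∀ i ∈ Finset.univ.filter (fun i => q i = polygon N i), ‖polygon N i - c‖ = ‖u‖ := by
    intro i hi
    have hi2 := (Finset.mem_filter.mp hi).2
    have h3 : q i ∈ Set.range q := ⟨i, rfl⟩
    rw [hq] at h3
    obtain ⟨v, ⟨j, rfl⟩, hv⟩ := h3
    rw [← hi2, ← hv]
    simp only [add_sub_cancel_left]
    rw [norm_mul, polygon_norm, mul_one]
  exact three_points (polygon_norm N a) (polygon_norm N b) (polygon_norm N d) hu (hdist a ha)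
    (hdist b hb) (hdist d hd) (fun h => hab (polygon_inj N h)) (fun h => had (polygon_inj N h))
    (fun h => hbd (polygon_inj N h))

lemma odd_bound {N : ℕ} (hN : N % 2 = 1) (hN5 : 5 ≤ N) : ∃ n ≤ 20 * N ^ 3, EnlargedBy N n := by
  obtain ⟨n, hn, hs⟩ := first hN hN5
  have e0 : (fun j : Fin N => zz N ^ (j : ℕ)) = polygon N := by
    funext j; rw [polygon_eq]
  rw [e0] at hs
  refine ⟨n, hn, _, hs, -(2 * (zz N / (1 + zz N ^ 2))), (1 + zz N) ^ 2 / (1 + zz N ^ 2), ?_, ?_⟩
  · have hne := one_add_zz_sq_ne hN hN5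
    have hwpos : 0 < ‖1 + zz N ^ 2‖ := norm_pos_iff.mpr hne
    rw [norm_div, norm_pow, one_lt_div hwpos]
    have hMr : (5 : ℝ) ≤ N := by exact_mod_cast hN5
    have hMpos : (0 : ℝ) < N := by linarith
    have hpi := Real.pi_pos
    have hz : zz N = Complex.exp ((2 * Real.pi / N : ℝ) * Complex.I) := by
      unfold zz; congr 1; push_cast; ring
    have hn1 : ‖1 + zz N‖ ^ 2 = 2 + 2 * Real.cos (2 * Real.pi / N) := by
      rw [← Complex.normSq_eq_norm_sq, hz, Complex.exp_mul_I, Complex.normSq_apply]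
      simp only [Complex.add_re, Complex.one_re, Complex.add_im, Complex.one_im, Complex.mul_re,
        Complex.mul_im, Complex.I_re, Complex.I_im, ← Complex.ofReal_cos, ← Complex.ofReal_sin,
        Complex.ofReal_re, Complex.ofReal_im]
      nlinarith [Real.sin_sq_add_cos_sq (2 * Real.pi / N)]
    have hn3 : ‖1 + zz N ^ 2‖ ≤ 2 := by
      calc ‖1 + zz N ^ 2‖ ≤ ‖(1 : ℂ)‖ + ‖zz N ^ 2‖ := norm_add_le _ _
        _ = 2 := by
          rw [norm_pow, hz, Complex.norm_exp_ofReal_mul_I]; norm_num
    have hc1 : 0 < Real.cos (2 * Real.pi / N) := by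
      apply Real.cos_pos_of_mem_Ioo
      constructor
      · have : 0 ≤ 2 * Real.pi / N := by positivity
        linarith
      · rw [div_lt_iff₀ hMpos]
        nlinarith
    rw [hn1]
    linarith
  · ext x
    constructor
    · rintro ⟨i, rfl⟩
      refine ⟨polygon N i, ⟨i, rfl⟩, ?_⟩
      simp only
      rw [polygon_eq]
      ring
    · rintro ⟨_, ⟨i, rfl⟩, rfl⟩
      refine ⟨i, ?_⟩
      simp only
      rw [polygon_eq]
      ring

/-- **Bounds for `f N`.**  For `N = 5` and for every `N ≥ 7` some finite sequence of moves enlarges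
the regular `N`-gon, and the least number `f N` of moves satisfies `N - 2 ≤ f N ≤ 9 N ^ 4`; for odd
`N` even `f N ≤ 20 N ^ 3`. -/
theorem result (N : ℕ) (hN : N = 5 ∨ 7 ≤ N) :
    EnlargedBy N (f N) ∧ (∀ n, EnlargedBy N n → f N ≤ n) ∧
      N - 2 ≤ f N ∧ f N ≤ 9 * N ^ 4 ∧ (N % 2 = 1 → f N ≤ 20 * N ^ 3) := by
  obtain ⟨n, hn, he⟩ := main N hN
  have hne : {n | EnlargedBy N n}.Nonempty := ⟨n, he⟩
  have hmem : EnlargedBy N (f N) := Nat.sInf_mem hne
  have hle : ∀ n, EnlargedBy N n → f N ≤ n := fun n h => Nat.sInf_le h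
  refine ⟨hmem, hle, lower hmem, (hle n he).trans hn, ?_⟩
  intro hodd
  obtain ⟨k, hk, he'⟩ := odd_bound hodd (by omega)
  exact (hle k he').trans hk

end Pool.Agent.Results.MP_b0c270_co.LeastNumber
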